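import Pool.Agent.Z15P.Z15.S.Stm
import Pool.Agent.Z15P.T2h62.J15.INDi

/-!
The main theorem on one-cycles on varieties defined by systems of forms: choice of the lines.
-/

set_option autoImplicit false
set_option linter.all false

open FF FF.PP MvPolynomial Pool.Agent.Z15P.Z15.H Pool.Agent.Z15P.Z15.J Pool.Agent.Z15P.Z15.J.Stm Pool.Agent.Z15P.Z15.S

namespace Pool.Agent.Z15P.T2h92.S15

open Pool.Agent.Z15P.T2h62.J15 (li_map cyc_pt)
open Pool.Agent.Z15P.T2h62.H15 (li_iff li_of_minor exists_minor)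

theorem vanish_symm {K : Type} [Field K] {ι : Type} {F : MvPolynomial ι K} {E : Type} [Field E]
    [Algebra K E] {A B : ι → E} (h : Vanish F A B) : Vanish F B A := by
  intro M _ _ _ _ α β
  rw [← h M β α]
  congr 1
  congr 1
  funext i
  exact add_comm _ _

section

variable {K : Type} [Field K] [Infinite K] {ι : Type} [Fintype ι]

theorem inf_of_char : Infinite K := inferInstance

theorem van_iff (hCO : S_CO) {F : MvPolynomial ι K} {d : ℕ} (hF : F.IsHomogeneous d) {E : Type}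
    [Field E] [Algebra K E] (P w : ι → E) : Vanish F P w ↔ ∀ j ≤ d, co F P w j = 0 :=
  haveI : Infinite K := inf_of_char
  (hCO K ι F d hF).2.1 E P w

theorem van_ext (hCO : S_CO) {F : MvPolynomial ι K} {d : ℕ} (hF : F.IsHomogeneous d) {E E' : Type}
    [Field E] [Algebra K E] [Field E'] [Algebra K E'] [Algebra E E'] [IsScalarTower K E E']
    {P w : ι → E} (h : Vanish F P w) :
    Vanish F (fun i => algebraMap E E' (P i)) (fun i => algebraMap E E' (w i)) := by
  haveI : Infinite K := inf_of_char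
  rw [van_iff hCO hF] at h ⊢
  intro j hj
  have h1 := (hCO K ι F d hF).2.2.2.1 E E' (IsScalarTower.toAlgHom K E E') P w j
  rw [h j hj, map_zero] at h1
  exact h1

/-- a line is contained in the variety if half of the coefficients vanish -/
theorem van_crit (hCO : S_CO) (hMIX : S_MIX) {F : MvPolynomial ι K} {d m : ℕ} {X Y : Finset ι}
    (hF : F.IsHomogeneous d) (hXY : Disjoint X Y) (hMix : Mix F X Y m) {E : Type} [Field E]
    [Algebra K E] {z u : ι → E} (hz : Supp X z) (hu : Supp Y u) (h1 : aeval z F = 0)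
    (h2 : ∀ j ≤ m, co F u z j = 0) : Vanish F z u := by
  haveI : Infinite K := inf_of_char
  obtain ⟨-, -, c3, -, c5, -, -⟩ := hCO K ι F d hF
  refine vanish_symm ((van_iff hCO hF u z).2 fun j hj => ?_)
  rcases le_or_gt j m with hjm | hjm
  · exact h2 j hjm
  rcases eq_or_lt_of_le hj with rfl | hjd
  · rw [(c3 E u z).2]
    exact h1
  · have e1 := (c5 E u z 1 j hj).2.2
    have e2 := hMIX K ι F d m X Y hF hXY hMix E z 0 u hz hu (d - j) (by omega)
    have e3 := (c5 E z 0 0 (d - j) (Nat.sub_le _ _)).1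
    rw [zero_pow (by omega), zero_mul] at e3
    have e4 : (fun i => (0 : ι → E) i + u i) = u := by
      funext i
      rw [Pi.zero_apply, zero_add]
    have e5 : (fun i => (0 : E) * (0 : ι → E) i) = 0 := by
      funext i
      rw [Pi.zero_apply, zero_mul]
    rw [e4] at e2
    rw [e5] at e3
    rw [← e1, e2, e3]

end

/-- vectors with disjoint supports are independent -/
theorem li_disj {E ι : Type} [Field E] {X Y : Finset ι} (hXY : Disjoint X Y) {z u : ι → E}
    (hz : Supp X z) (hu : Supp Y u) (hz0 : z ≠ 0) (hu0 : u ≠ 0) : LinearIndependent E ![z, u] := by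
  obtain ⟨i, hi⟩ : ∃ i, z i ≠ 0 := by
    by_contra h
    push Not at h
    exact hz0 (funext h)
  obtain ⟨j, hj⟩ : ∃ j, u j ≠ 0 := by
    by_contra h
    push Not at h
    exact hu0 (funext h)
  have hiX : i ∈ X := by
    by_contra h
    exact hi (hz i h)
  have hiY : i ∉ Y := Finset.disjoint_left.1 hXY hiX
  refine li_of_minor (i := i) (j := j) ?_
  rw [hu i hiY, mul_zero, sub_zero]
  exact mul_ne_zero hi hj

theorem supp_map {E E' ι : Type} [Field E] [Field E'] (φ : E →+* E') {X : Finset ι} {z : ι → E}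
    (hz : Supp X z) : Supp X (fun i => φ (z i)) := fun i hi => by
  change φ (z i) = 0
  rw [hz i hi, map_zero]

theorem ne_map {E E' ι : Type} [Field E] [Field E'] (φ : E →+* E') {z : ι → E}
    (hz : z ≠ 0) : (fun i => φ (z i)) ≠ 0 := fun h =>
  hz (funext fun i => φ.injective (by rw [Pi.zero_apply, map_zero]; exact congrFun h i))

/-- solution of the equations over an algebraically closed field -/
theorem solve_closed (hCO : S_CO) (hSOLVE : S_SOLVE) {k : Type} [Field k] [IsAlgClosed k]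
    [Infinite k] {ι B : Type} [Fintype ι] [Fintype B] (F : B → MvPolynomial ι k) (d : B → ℕ)
    (hF : ∀ b, (F b).IsHomogeneous (d b)) (P : B → ι → k) (j : B → ℕ)
    (hj : ∀ b, 0 < j b ∧ j b ≤ d b) (S : Finset ι) (hS : Fintype.card B < S.card) :
    ∃ w : ι → k, w ≠ 0 ∧ Supp S w ∧ ∀ b, co (F b) (P b) w (j b) = 0 := by
  haveI : Infinite k := inf_of_char
  obtain ⟨E', i1, i2, i3, i4, w, hfin, hw0, hwS, hw⟩ := hSOLVE k k ι B F d hF P j hj S hS
  have hE : i2 = i3 := Algebra.algebra_ext _ _ fun r =>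
    (@IsScalarTower.algebraMap_apply k k E' _ _ _ (Algebra.id k) i2 i3 i4 r).symm
  subst hE
  have hsurj : ∀ x : E', ∃ y : k, algebraMap k E' y = x := by
    have h1 : Algebra.IsIntegral k E' := Algebra.IsIntegral.of_finite k E'
    exact (IsAlgClosed.algebraMap_bijective_of_isIntegral (k := k) (K := E')).2
  choose v hv using fun i => hsurj (w i)
  have hvw : (fun i => algebraMap k E' (v i)) = w := funext hv
  have hinj := (algebraMap k E').injective
  refine ⟨v, ?_, ?_, fun b => ?_⟩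
  · rintro rfl
    apply hw0
    rw [← hvw]
    funext i
    rw [Pi.zero_apply, map_zero, Pi.zero_apply]
  · intro i hi
    apply hinj
    rw [hv, hwS i hi, map_zero]
  · apply hinj
    have h1 := (hCO k ι (F b) (d b) (hF b)).2.2.2.1 k E' (Algebra.ofId k E') (P b) v (j b)
    have h2 := hw b
    rw [← hvw] at h2
    rw [map_zero]
    exact h1.symm.trans h2

section core

variable {K : Type} [Field K] [Infinite K] {ι α : Type} [Fintype ι] [Fintype α]

theorem count1 [Nonempty α] {d m : α → ℕ} (hd2 : ∀ a, 2 ≤ d a) (hm : ∀ a, m a < d a) :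
    ∑ a, (m a + 1) < ∑ a, ∑ i ∈ Finset.range (m a + 1), (d a - i) := by
  refine Finset.sum_lt_sum_of_nonempty Finset.univ_nonempty fun a _ => ?_
  rw [Finset.sum_range_succ']
  have h1 : ∑ i ∈ Finset.range (m a), 1 ≤ ∑ i ∈ Finset.range (m a), (d a - (i + 1)) := by
    refine Finset.sum_le_sum fun i hi => ?_
    have := Finset.mem_range.1 hi
    have := hm a
    omega
  rw [Finset.sum_const, Finset.card_range, smul_eq_mul, mul_one] at h1
  have := hd2 a
  omega

theorem count2 {d m : α → ℕ} (hm : ∀ a, m a < d a) :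
    ∑ a, (1 + 2 * m a) ≤ ∑ a, (d a + ∑ i ∈ Finset.range (m a + 1), i) := by
  refine Finset.sum_le_sum fun a _ => ?_
  rw [Finset.sum_range_succ]
  have := hm a
  omega

variable [Nonempty α] {F : α → MvPolynomial ι K}
  {d m : α → ℕ} {X Y : Finset ι}

omit [Fintype α] [Nonempty α] in
theorem aeval_left (hCO : S_CO) (hF : ∀ a, (F a).IsHomogeneous (d a)) {E : Type} [Field E]
    [Algebra K E] {A B : ι → E} (h : ∀ a, Vanish (F a) A B) (a : α) : aeval A (F a) = 0 := by
  haveI : Infinite K := inf_of_char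
  have h1 := (van_iff hCO (hF a) _ _).1 (h a) 0 (Nat.zero_le _)
  rwa [((hCO K ι (F a) (d a) (hF a)).2.2.1 _ _ _).1] at h1

/-- a point `u` such that the line through `z` and `u` is contained in the variety -/
theorem solve_u (hCO : S_CO) (hSOLVE : S_SOLVE)
    (hMIX : S_MIX) (hF : ∀ a, (F a).IsHomogeneous (d a)) (hd2 : ∀ a, 2 ≤ d a)
    (hm : ∀ a, m a < d a) (hXY : Disjoint X Y) (hMix : ∀ a, Mix (F a) X Y (m a))
    (hY : ∑ a, ∑ i ∈ Finset.range (m a + 1), (d a - i) ≤ Y.card)
    {κ : Type} [Field κ] [Algebra K κ] {z : ι → κ} (hz : Supp X z)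
    (hV : ∀ a, aeval z (F a) = 0) :
    ∃ (E : Type) (_ : Field E) (_ : Algebra κ E) (_ : Algebra K E) (_ : IsScalarTower K κ E)
      (u : ι → E), FiniteDimensional κ E ∧ u ≠ 0 ∧ Supp Y u ∧
      ∀ a, Vanish (F a) (fun i => algebraMap κ E (z i)) u := by
  classical
  haveI : Infinite K := inf_of_char
  obtain ⟨κ1, i1, i2, i3, i4, u, hfin1, hu0, hu, huco⟩ := hSOLVE K κ ι (Σ a, Fin (m a + 1))
    (fun b => F b.1) (fun b => d b.1) (fun b => hF b.1) (fun _ => z) (fun b => d b.1 - b.2)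
    (fun b => by
      have h1 := b.2.2
      have h2 := hm b.1
      omega) Y (by
      rw [Fintype.card_sigma]
      simp only [Fintype.card_fin]
      exact lt_of_lt_of_le (count1 hd2 hm) hY)
  refine ⟨κ1, i1, i2, i3, i4, u, hfin1, hu0, hu, fun a => ?_⟩
  obtain ⟨-, -, c3, c4, c5, -, -⟩ := hCO K ι (F a) (d a) (hF a)
  have h0 : aeval (fun i => algebraMap κ κ1 (z i)) (F a) = 0 := by
    have h1 := c4 κ κ1 (IsScalarTower.toAlgHom K κ κ1) z z 0
    rw [(c3 _ _ _).1, (c3 _ _ _).1, hV a, map_zero] at h1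
    exact h1
  refine van_crit hCO hMIX (hF a) hXY (hMix a) (supp_map (algebraMap κ κ1) hz) hu h0
    fun j hj => ?_
  have hjd : j ≤ d a := hj.trans (hm a).le
  have h1 := (c5 κ1 (fun i => algebraMap κ κ1 (z i)) u 1 (d a - j) (Nat.sub_le _ _)).2.2
  rw [Nat.sub_sub_self hjd] at h1
  rw [h1]
  have h2 := huco ⟨a, ⟨j, Nat.lt_succ_of_le hj⟩⟩
  exact h2

/-- a point `z` such that the lines through `z` and `u`, `u'` are contained in the variety -/
theorem solve_z (hCO : S_CO) (hSOLVE : S_SOLVE)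
    (hMIX : S_MIX) (hF : ∀ a, (F a).IsHomogeneous (d a)) (hd2 : ∀ a, 2 ≤ d a)
    (hm : ∀ a, m a < d a) (hXY : Disjoint X Y) (hMix : ∀ a, Mix (F a) X Y (m a))
    (hX : ∑ a, (d a + ∑ i ∈ Finset.range (m a + 1), i) + 1 ≤ X.card)
    {κ : Type} [Field κ] [Algebra K κ] {u u' : ι → κ} (hu : Supp Y u) (hu' : Supp Y u')
    (hV : ∀ a, aeval u (F a) = 0) (hV' : ∀ a, aeval u' (F a) = 0) :
    ∃ (E : Type) (_ : Field E) (_ : Algebra κ E) (_ : Algebra K E) (_ : IsScalarTower K κ E)
      (z : ι → E), FiniteDimensional κ E ∧ z ≠ 0 ∧ Supp X z ∧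
      (∀ a, Vanish (F a) z (fun i => algebraMap κ E (u i))) ∧
      ∀ a, Vanish (F a) z (fun i => algebraMap κ E (u' i)) := by
  classical
  haveI : Infinite K := inf_of_char
  obtain ⟨κ2, i1, i2, i3, i4, z', hfin2, hz'0, hz', hzco⟩ := hSOLVE K κ ι
    (α ⊕ ((Σ a, Fin (m a)) ⊕ (Σ a, Fin (m a))))
    (Sum.elim (fun a => F a) (Sum.elim (fun b => F b.1) (fun b => F b.1)))
    (Sum.elim (fun a => d a) (Sum.elim (fun b => d b.1) (fun b => d b.1)))
    (by
      rintro (a | b | b)
      · exact hF a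
      · exact hF b.1
      · exact hF b.1)
    (Sum.elim (fun _ => u) (Sum.elim (fun _ => u) (fun _ => u')))
    (Sum.elim (fun a => d a) (Sum.elim (fun b => b.2 + 1) (fun b => b.2 + 1)))
    (by
      rintro (a | b | b)
      · have := hd2 a
        simp only [Sum.elim_inl]
        omega
      · have h1 := b.2.2
        have h2 := hm b.1
        simp only [Sum.elim_inr, Sum.elim_inl]
        omega
      · have h1 := b.2.2
        have h2 := hm b.1
        simp only [Sum.elim_inr]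
        omega) X (by
      rw [Fintype.card_sum, Fintype.card_sum, Fintype.card_sigma]
      simp only [Fintype.card_fin]
      have h1 := count2 hm
      have h2 : ∑ a, (1 + 2 * m a) = Fintype.card α + (∑ a, m a + ∑ a, m a) := by
        rw [Finset.sum_add_distrib, Finset.sum_const, ← Finset.mul_sum, two_mul]
        simp
      omega)
  have e1 : ∀ a, co (F a) (fun i => algebraMap κ κ2 (u i)) z' (d a) = 0 := fun a =>
    hzco (Sum.inl a)
  have e2 : ∀ a, ∀ j : Fin (m a), co (F a) (fun i => algebraMap κ κ2 (u i)) z' (j + 1) = 0 :=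
    fun a j => hzco (Sum.inr (Sum.inl ⟨a, j⟩))
  have e3 : ∀ a, ∀ j : Fin (m a), co (F a) (fun i => algebraMap κ κ2 (u' i)) z' (j + 1) = 0 :=
    fun a j => hzco (Sum.inr (Sum.inr ⟨a, j⟩))
  clear hzco
  have hzero : ∀ a, aeval z' (F a) = 0 := by
    intro a
    obtain ⟨-, -, c3, -, -, -, -⟩ := hCO K ι (F a) (d a) (hF a)
    rw [← (c3 κ2 (fun i => algebraMap κ κ2 (u i)) z').2]
    exact e1 a
  have key : ∀ v : ι → κ, Supp Y v → (∀ a, aeval v (F a) = 0) →
      (∀ a, ∀ j : Fin (m a), co (F a) (fun i => algebraMap κ κ2 (v i)) z' (j + 1) = 0) →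
      ∀ a, Vanish (F a) z' (fun i => algebraMap κ κ2 (v i)) := by
    intro v hv hv0 hvco a
    obtain ⟨-, -, c3, c4, -, -, -⟩ := hCO K ι (F a) (d a) (hF a)
    refine van_crit hCO hMIX (hF a) hXY (hMix a) hz' (supp_map (algebraMap κ κ2) hv) (hzero a)
      fun j hj => ?_
    rcases Nat.eq_zero_or_pos j with rfl | hj0
    · rw [(c3 _ _ _).1]
      have h1 := c4 κ κ2 (IsScalarTower.toAlgHom K κ κ2) v v 0
      rw [(c3 _ _ _).1, (c3 _ _ _).1, hv0 a, map_zero] at h1
      exact h1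
    · have h1 := hvco a ⟨j - 1, by omega⟩
      have h2 : ((⟨j - 1, by omega⟩ : Fin (m a)) : ℕ) + 1 = j := Nat.sub_add_cancel hj0
      rw [h2] at h1
      exact h1
  exact ⟨κ2, i1, i2, i3, i4, z', hfin2, hz'0, hz', key u hu hV e2, key u' hu' hV' e3⟩

/-- the comparison over one field -/
theorem chain (hL1 : S_L1) (hL2 : S_L2) (hC : T_CYC2)
    (hF : ∀ a, (F a).IsHomogeneous (d a))
    (hm : ∀ a, m a < d a) (hXY : Disjoint X Y) (hMix : ∀ a, Mix (F a) X Y (m a))
    (hX : ∑ a, (d a + ∑ i ∈ Finset.range (m a + 1), i) + 1 ≤ X.card)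
    (hY : ∑ a, ∑ i ∈ Finset.range (m a + 1), (d a - i) ≤ Y.card)
    {z1 u1 : ι → K} (hz1 : Supp X z1) (hz10 : z1 ≠ 0) (hu1 : Supp Y u1) (hu10 : u1 ≠ 0)
    {κ : Type} [Field κ] [Algebra K κ] (htr : Algebra.trdeg K κ = 0) {z B u z' : ι → κ}
    (hz : Supp X z) (hz' : Supp X z') (hz'0 : z' ≠ 0) (hu : Supp Y u) (hu0 : u ≠ 0)
    (hLI : LinearIndependent κ ![z, B]) (hV : ∀ a, Vanish (F a) z B)
    (hV1 : ∀ a, Vanish (F a) (fun i => algebraMap K κ (z1 i)) (fun i => algebraMap K κ (u1 i)))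
    (hV2 : ∀ a, Vanish (F a) z u) (hV3 : ∀ a, Vanish (F a) z' u)
    (hV4 : ∀ a, Vanish (F a) z' (fun i => algebraMap K κ (u1 i))) :
    cyc K (gen z B) ∈ Mult (RatS K 1 F) (cyc K (gen z1 u1)) := by
  have hX' : ∑ a, d a + 1 ≤ X.card := by
    refine le_trans (Nat.succ_le_succ ?_) hX
    exact Finset.sum_le_sum fun a _ => Nat.le_add_right _ _
  have hz0 : z ≠ 0 := by
    rintro rfl
    exact one_ne_zero (li_iff.1 hLI 1 0 (by simp)).1
  have hu12 : Supp Y (fun i => algebraMap K κ (u1 i)) := supp_map _ hu1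
  have hu120 := ne_map (algebraMap K κ) hu10
  have hz12 : Supp X (fun i => algebraMap K κ (z1 i)) := supp_map _ hz1
  have hz120 := ne_map (algebraMap K κ) hz10
  have s1 := hL1 K ι α F d m X Y hF hm hXY hMix hX' hY κ htr z B u hz hu hu0 hLI hV hV2
  have s2 := hL2 K ι α F d m X Y hF hm hXY hMix hX κ htr z z' u hz hz' hu hu0 hz0 hz'0 hV2 hV3
  have s3 := hL1 K ι α F d m X Y hF hm hXY hMix hX' hY κ htr z' u
    (fun i => algebraMap K κ (u1 i)) hz' hu12 hu120 (li_disj hXY hz' hu hz'0 hu0) hV3 hV4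
  have s4 := hL2 K ι α F d m X Y hF hm hXY hMix hX κ htr z' (fun i => algebraMap K κ (z1 i))
    (fun i => algebraMap K κ (u1 i)) hz' hz12 hu12 hu120 hz'0 hz120 hV4 hV1
  have s5 : cyc K (gen (fun i => algebraMap K κ (z1 i)) (fun i => algebraMap K κ (u1 i))) ∈
      Mult (RatS K 1 F) (cyc K (gen z1 u1)) := by
    have h1 := (hC K ι K).2.2.2.2.1 κ z1 u1
    rw [h1]
    exact nsmul_mem Mult.self _
  exact Mult.trans (Mult.trans (Mult.trans (Mult.trans s1 s2) s3) s4) s5

theorem core (hL1 : S_L1) (hL2 : S_L2) (hC : T_CYC2) (hCO : S_CO) (hSOLVE : S_SOLVE)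
    (hMIX : S_MIX) (hF : ∀ a, (F a).IsHomogeneous (d a)) (hd2 : ∀ a, 2 ≤ d a)
    (hm : ∀ a, m a < d a) (hXY : Disjoint X Y) (hMix : ∀ a, Mix (F a) X Y (m a))
    (hX : ∑ a, (d a + ∑ i ∈ Finset.range (m a + 1), i) + 1 ≤ X.card)
    (hY : ∑ a, ∑ i ∈ Finset.range (m a + 1), (d a - i) ≤ Y.card)
    {z1 u1 : ι → K} (hz1 : Supp X z1) (hz10 : z1 ≠ 0) (hu1 : Supp Y u1) (hu10 : u1 ≠ 0)
    (hV1 : ∀ a, Vanish (F a) z1 u1) {κ : Type} [Field κ] [Algebra K κ]
    (htr : Algebra.trdeg K κ = 0) {z B : ι → κ} (hz : Supp X z)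
    (hLI : LinearIndependent κ ![z, B]) (hV : ∀ a, Vanish (F a) z B) :
    cyc K (gen z B) ∈ Mult (RatS K 1 F) (cyc K (gen z1 u1)) := by
  obtain ⟨κ1, _, _, _, _, u, hfin1, hu0, hu, hVu⟩ := solve_u hCO hSOLVE hMIX hF hd2 hm hXY hMix
    hY hz (aeval_left hCO hF hV)
  obtain ⟨κ2, _, _, _, _, z', hfin2, hz'0, hz', hVz1, hVz2⟩ := solve_z hCO hSOLVE hMIX hF hd2 hm
    hXY hMix hX (κ := κ1) (u := u) (u' := fun i => algebraMap K κ1 (u1 i)) hu (supp_map _ hu1)
    (aeval_left hCO hF fun a => vanish_symm (hVu a))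
    (aeval_left hCO hF fun a => vanish_symm (van_ext hCO (hF a) (E' := κ1) (hV1 a)))
  letI a2 : Algebra κ κ2 := ((algebraMap κ1 κ2).comp (algebraMap κ κ1)).toAlgebra
  have hmap : ∀ x : κ, algebraMap κ κ2 x = algebraMap κ1 κ2 (algebraMap κ κ1 x) := fun _ => rfl
  haveI t1 : IsScalarTower κ κ1 κ2 := IsScalarTower.of_algebraMap_eq fun _ => rfl
  haveI t2 : IsScalarTower K κ κ2 := IsScalarTower.of_algebraMap_eq fun x => by
    rw [hmap, ← IsScalarTower.algebraMap_apply K κ κ1, ← IsScalarTower.algebraMap_apply K κ1 κ2]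
  haveI hfin : FiniteDimensional κ κ2 := FiniteDimensional.trans κ κ1 κ2
  have htr2 : Algebra.trdeg K κ2 = 0 := by
    have h1 : Algebra.IsAlgebraic K κ := (trdeg_eq_zero_iff).1 htr
    have h2 : Algebra.IsAlgebraic κ κ2 := Algebra.IsAlgebraic.of_finite κ κ2
    exact (trdeg_eq_zero_iff).2 (Algebra.IsAlgebraic.trans K κ κ2)
  have e1 : (fun i => algebraMap κ1 κ2 (algebraMap K κ1 (u1 i))) =
      fun i => algebraMap K κ2 (u1 i) := by
    funext i
    rw [← IsScalarTower.algebraMap_apply K κ1 κ2]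
  have hVz2' : ∀ a, Vanish (F a) z' (fun i => algebraMap K κ2 (u1 i)) := by
    intro a
    have h1 := hVz2 a
    rw [e1] at h1
    exact h1
  have hV1' : ∀ a, Vanish (F a) (fun i => algebraMap K κ2 (z1 i))
      (fun i => algebraMap K κ2 (u1 i)) := by
    intro a
    have h1 := van_ext (E' := κ2) hCO (hF a) (hV1 a)
    exact h1
  have e2 : (fun i => algebraMap κ κ2 (z i)) =
      fun i => algebraMap κ1 κ2 (algebraMap κ κ1 (z i)) := funext fun i => hmap (z i)
  have hVu' : ∀ a, Vanish (F a) (fun i => algebraMap κ κ2 (z i))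
      (fun i => algebraMap κ1 κ2 (u i)) := by
    intro a
    rw [e2]
    have h1 := van_ext (E' := κ2) hCO (hF a) (hVu a)
    exact h1
  have hV' : ∀ a, Vanish (F a) (fun i => algebraMap κ κ2 (z i))
      (fun i => algebraMap κ κ2 (B i)) := by
    intro a
    have h1 := van_ext (E' := κ2) hCO (hF a) (hV a)
    exact h1
  have s6 := chain hL1 hL2 hC hF hm hXY hMix hX hY hz1 hz10 hu1 hu10 htr2
    (supp_map (algebraMap κ κ2) hz) hz' hz'0 (supp_map (algebraMap κ1 κ2) hu)
    (ne_map (algebraMap κ1 κ2) hu0) (li_map (algebraMap κ κ2) hLI) hV' hV1' hVu' hVz1 hVz2'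
  have s7 := (hC K ι κ).2.2.2.2.1 κ2 z B
  have s8 : Module.finrank κ κ2 • cyc K (gen z B) ∈ Mult (RatS K 1 F) (cyc K (gen z1 u1)) := by
    rw [← s7]
    exact s6
  exact Mult.of_nsmul Module.finrank_pos s8

end core

theorem lin_gen (hLIN : T_LIN) {K : Type} [Field K] [Infinite K] {ι : Type} [Fintype ι]
    (fl : ℕ → ι → K) (h : LinearIndependent K ![fl 0, fl 1]) :
    cyc K (gen (fl 0) (fl 1)) = lin K fl 1 := by
  have h1 := hLIN K ι (RatFunc K) 1 (fun _ => RatFunc.X) fl
    (algebraicIndependent_unique_type_iff.2 RatFunc.transcendental_X)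
    (by rw [Set.range_const]; exact RatFunc.adjoin_X) (by
      have e : (fun j : Fin (1 + 1) => fl j) = ![fl 0, fl 1] := by
        funext j
        fin_cases j <;> rfl
      rw [e]
      exact h)
  rw [← h1]
  congr 1
  funext i
  rw [Fin.sum_univ_one]
  rfl

theorem s_MAINi : S_MAINi := by
  intro hSB1 hL1 hL2 hPEN hLIN hC hCO hSOLVE hMIX k _ _ _ ι α _ _ _ F d m X Y hF hd2 hm hXY hMix
    hX hY
  classical
  haveI : Infinite k := inf_of_char
  have hco := fun a => hCO k ι (F a) (d a) (hF a)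
  have hX' : ∑ a, d a + 1 ≤ X.card := by
    refine le_trans (Nat.succ_le_succ ?_) hX
    exact Finset.sum_le_sum fun a _ => Nat.le_add_right _ _
  have hc1 : ∑ a, (m a + 1) = Fintype.card α + ∑ a, m a := by
    rw [Finset.sum_add_distrib, add_comm]
    simp
  have hm1 : ∑ a, (m a + 1) ≤ ∑ a, d a := Finset.sum_le_sum fun a _ => hm a
  -- the points
  obtain ⟨u1, hu10, hu1, hu1co⟩ := solve_closed hCO hSOLVE F d hF (fun _ => 0) d
    (fun a => ⟨by have := hd2 a; omega, le_rfl⟩) Y (by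
      have := count1 hd2 hm
      omega)
  have hu1F : ∀ a, aeval u1 (F a) = 0 := fun a => by
    rw [← ((hco a).2.2.1 k 0 u1).2]
    exact hu1co a
  obtain ⟨z1, hz10, hz1, hz1co⟩ := solve_closed hCO hSOLVE (B := α ⊕ (Σ a, Fin (m a)))
    (Sum.elim (fun a => F a) (fun b => F b.1)) (Sum.elim (fun a => d a) (fun b => d b.1))
    (by
      rintro (a | b)
      · exact hF a
      · exact hF b.1) (fun _ => u1) (Sum.elim (fun a => d a) (fun b => b.2 + 1))
    (by
      rintro (a | b)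
      · have := hd2 a
        simp only [Sum.elim_inl]
        omega
      · have h1 := b.2.2
        have h2 := hm b.1
        simp only [Sum.elim_inr]
        omega) X (by
      rw [Fintype.card_sum, Fintype.card_sigma]
      simp only [Fintype.card_fin]
      omega)
  have hV1 : ∀ a, Vanish (F a) z1 u1 := by
    intro a
    obtain ⟨-, -, c3, -, -, -, -⟩ := hco a
    refine van_crit hCO hMIX (hF a) hXY (hMix a) hz1 hu1 ?_ fun j hj => ?_
    · rw [← (c3 k u1 z1).2]
      exact hz1co (Sum.inl a)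
    · rcases Nat.eq_zero_or_pos j with rfl | hj0
      · rw [(c3 _ _ _).1]
        exact hu1F a
      · have h1 := hz1co (Sum.inr ⟨a, ⟨j - 1, by omega⟩⟩)
        simp only [Sum.elim_inr] at h1
        rwa [Nat.sub_add_cancel hj0] at h1
  obtain ⟨Λ, hΛ⟩ : ∃ Λ : ℕ → ι → k, Λ = fun n => if n = 0 then z1 else u1 := ⟨_, rfl⟩
  have hΛ0 : Λ 0 = z1 := by rw [hΛ]; exact if_pos rfl
  have hΛ1 : Λ 1 = u1 := by rw [hΛ]; exact if_neg one_ne_zero
  have hLI : LinearIndependent k ![z1, u1] := li_disj hXY hz1 hu1 hz10 hu10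
  refine ⟨Λ, ?_, fun a c => ?_, fun K _ _ => ?_⟩
  · have e : (fun j : Fin 2 => Λ j) = ![z1, u1] := by
      funext j
      fin_cases j
      · exact hΛ0
      · exact hΛ1
    rw [e]
    exact hLI
  · have h1 := hV1 a k (c 0) (c 1)
    rw [← MvPolynomial.coe_aeval_eq_eval]
    rw [← h1]
    change aeval _ _ = aeval _ _
    congr 2
    funext i
    rw [Fin.sum_univ_two]
    change c 0 * Λ 0 i + c 1 * Λ 1 i = _
    rw [hΛ0, hΛ1]
    rfl
  · haveI hcK : Infinite K := Infinite.of_injective _ (algebraMap k K).injective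
    haveI : Infinite K := inf_of_char
    have hFK : ∀ a, (map (algebraMap k K) (F a)).IsHomogeneous (d a) := fun a => (hF a).map _
    have hMixK : ∀ a, Mix (map (algebraMap k K) (F a)) X Y (m a) := fun a s hs =>
      hMix a s (support_map_subset _ _ hs)
    have hVK : ∀ a, Vanish (map (algebraMap k K) (F a)) (fun i => algebraMap k K (z1 i))
        (fun i => algebraMap k K (u1 i)) := by
      intro a
      rw [van_iff hCO (hFK a)]
      intro j hj
      obtain ⟨-, c2, -, c4, -, c6, -⟩ := hco a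
      rw [c6 K K]
      have h1 := c4 k K (Algebra.ofId k K) z1 u1 j
      rw [(van_iff hCO (hF a) z1 u1).1 (hV1 a) j hj, map_zero] at h1
      exact h1
    have hz1K : Supp X (fun i => algebraMap k K (z1 i)) := supp_map _ hz1
    have hz1K0 := ne_map (algebraMap k K) hz10
    have hu1K : Supp Y (fun i => algebraMap k K (u1 i)) := supp_map _ hu1
    have hu1K0 := ne_map (algebraMap k K) hu10
    have hz1e : ∀ a, eval (fun i => algebraMap k K (z1 i)) (map (algebraMap k K) (F a)) = 0 := by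
      intro a
      have h1 := (van_iff hCO (hFK a) _ _).1 (hVK a) 0 (Nat.zero_le _)
      rw [((hCO K ι _ _ (hFK a)).2.2.1 K _ _).1] at h1
      rw [← MvPolynomial.coe_aeval_eq_eval]
      exact h1
    have hp0 : cyc K (fun i => algebraMap k K (z1 i)) =
        lin K (fun i j => algebraMap k K (Λ i j)) 0 := by
      rw [← cyc_pt (fl := Λ) (by rw [hΛ0]; exact hz10) K, hΛ0]
    have hp1 : cyc K (gen (fun i => algebraMap k K (z1 i)) (fun i => algebraMap k K (u1 i))) =
        lin K (fun i j => algebraMap k K (Λ i j)) 1 := by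
      have h1 := lin_gen hLIN (K := K) (fun i j => algebraMap k K (Λ i j)) (by
        rw [hΛ0, hΛ1]
        exact li_disj hXY hz1K hu1K hz1K0 hu1K0)
      rw [← h1, hΛ0, hΛ1]
    refine ⟨?_, ?_⟩
    · refine hSB1 k ι α F d m X Y hF hm hXY hMix ?_ u1 hu10 hu1 (fun a => ?_) K _
        fun κ _ _ htr z B hz hzB hV => ?_
      · refine le_trans (Nat.succ_le_succ ?_) hX
        refine Finset.sum_le_sum fun a _ => ?_
        rw [Finset.sum_range_succ]
        omega
      · rw [← MvPolynomial.coe_aeval_eq_eval]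
        exact hu1F a
      · rw [← hp1]
        exact core hL1 hL2 hC hCO hSOLVE hMIX hFK hd2 hm hXY hMixK hX hY hz1K hz1K0 hu1K hu1K0
          hVK htr hz hzB hV
    · intro E _ _ P htr hP hFP
      rw [← hp0]
      refine hPEN K ι α _ d (fun a => by have := hd2 a; omega) hFK ?_ _ hz1K0 hz1e E P ?_ hP hFP
      · exact hX'.trans (Finset.card_le_univ X)
      · rw [htr]
        norm_num

end Pool.Agent.Z15P.T2h92.S15
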